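import Pool.Agent.Helper63.XR.StB

set_option autoImplicit false

namespace Pool.Agent.Helper60.XR

open Pool.Agent.Helper63.XR

theorem cmp_cmp {X : Type} [TopologicalSpace X] (h : X ≃ₜ X) (m n : ℤ) (f : C(X, ℂ)) :
    cmp h m (cmp h n f) = cmp h (n + m) f := by
  ext x
  simp only [Helper63.XR.cmp, ContinuousMap.comp_apply, ContinuousMap.coe_mk]
  rw [zpow_add]
  rfl

theorem cmp_zero {X : Type} [TopologicalSpace X] (h : X ≃ₜ X) (f : C(X, ℂ)) :
    cmp h 0 f = f := by
  ext x
  simp only [Helper63.XR.cmp, ContinuousMap.comp_apply, ContinuousMap.coe_mk, zpow_zero]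
  rfl

theorem hEVM : StEvm := by
  intro X _ _ h A _ _ j U hA
  have hcov := hA.cov
  have hcov' : ∀ f, ((U⁻¹ : Aˣ) : A) * j f = j (cmp h 1 f) * ((U⁻¹ : Aˣ) : A) := by
    intro f
    have h1 := hcov (cmp h 1 f)
    rw [cmp_cmp] at h1
    norm_num at h1
    rw [cmp_zero] at h1
    calc ((U⁻¹ : Aˣ) : A) * j f = ((U⁻¹ : Aˣ) : A) * (j f * U) * ((U⁻¹ : Aˣ) : A) := by
          rw [mul_assoc, mul_assoc, Units.mul_inv, mul_one]
      _ = ((U⁻¹ : Aˣ) : A) * (U * j (cmp h 1 f)) * ((U⁻¹ : Aˣ) : A) := by rw [h1]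
      _ = _ := by rw [← mul_assoc, Units.inv_mul, one_mul]
  have hz : ∀ (m : ℤ) (f : C(X, ℂ)),
      ((U ^ m : Aˣ) : A) * j f = j (cmp h (-m) f) * ((U ^ m : Aˣ) : A) := by
    intro m
    induction m using Int.induction_on with
    | zero => intro f; simp [cmp_zero]
    | succ n ih =>
      intro f
      rw [zpow_add_one, Units.val_mul, mul_assoc, hcov, ← mul_assoc, ih, cmp_cmp, mul_assoc]
      congr 3
      ring
    | pred n ih =>
      intro f
      rw [zpow_sub_one, Units.val_mul, mul_assoc, hcov', ← mul_assoc, ih, cmp_cmp, mul_assoc]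
      congr 3
      ring
  have hadd : ∀ g g' : FS X, ev j U (g + g') = ev j U g + ev j U g' := by
    intro g g'
    unfold ev
    exact Finsupp.sum_add_index' (fun n => by simp) (fun n a b => by rw [map_add, add_mul])
  have hzero : ev j U (0 : FS X) = 0 := by
    unfold ev; simp
  let evH : FS X →+ A := ⟨⟨ev j U, hzero⟩, hadd⟩
  have hsingle : ∀ n f, ev j U (Finsupp.single n f) = j f * ((U ^ n : Aˣ) : A) := by
    intro n f
    unfold ev
    rw [Finsupp.sum_single_index]
    simp
  refine ⟨hadd, ?_, ?_⟩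
  · intro g g'
    exact map_sub evH g g'
  · intro g g'
    have h1 : ev j U (tw h g g') = g.sum fun m f => g'.sum fun n f' =>
        ev j U (Finsupp.single (m + n) (f * cmp h (-m) f')) := by
      change evH (tw h g g') = _
      unfold tw
      rw [map_finsuppSum]
      refine Finsupp.sum_congr fun m _ => ?_
      rw [map_finsuppSum]
      rfl
    rw [h1]
    conv_rhs => unfold ev
    rw [Finsupp.sum_mul]
    refine Finsupp.sum_congr fun m _ => ?_
    rw [Finsupp.mul_sum]
    refine Finsupp.sum_congr fun n _ => ?_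
    rw [hsingle, map_mul, zpow_add, Units.val_mul]
    have h2 := hz m (g' n)
    calc j (g m) * j (cmp h (-m) (g' n)) * (((U ^ m : Aˣ) : A) * ((U ^ n : Aˣ) : A))
        = j (g m) * (j (cmp h (-m) (g' n)) * ((U ^ m : Aˣ) : A)) * ((U ^ n : Aˣ) : A) := by
          simp only [mul_assoc]
      _ = j (g m) * (((U ^ m : Aˣ) : A) * j (g' n)) * ((U ^ n : Aˣ) : A) := by rw [h2]
      _ = _ := by simp only [mul_assoc]

end Pool.Agent.Helper60.XR
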